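import Pool.Agent.R537.LR.Stm

set_option autoImplicit false

/-!
# The blow-up for `p = 0`
-/

namespace Pool.Agent.R569.LRBL0

open Pool.Agent.NPC.R537LR

theorem card_blocks {I J : Type} [Fintype I] [Fintype J] {T : ℕ}
    (P : (I × Fin T) × (J × Fin T) → Prop) [DecidablePred P] :
    (Finset.univ.filter P).card = ∑ i : I, ∑ j : J,
      ((Finset.univ : Finset (Fin T × Fin T)).filter
        (fun ab => P ((i, ab.1), (j, ab.2)))).card := by
  simp only [Finset.card_filter, Fintype.sum_prod_type]
  apply Finset.sum_congr rfl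
  intro i _
  rw [Finset.sum_comm]

theorem rank_cau (h1 : S_CAU) {m n : Type} [Fintype m] [Fintype n] [DecidableEq m] [DecidableEq n]
    (B : Matrix m n ℝ) (hB : B.rank ≤ 3) (r : Fin 4 → m) (c : Fin 4 → n) (x y : Fin 4 → ℕ)
    (hx : Function.Injective x) (hy : Function.Injective y)
    (h : ∀ i j, B (r i) (c j) = (1 : ℝ) / ((x i : ℝ) + (y j : ℝ) + 1)) : False := by
  have e1 : B.submatrix r c = Matrix.of fun i j => (1 : ℝ) / ((x i : ℝ) + (y j : ℝ) + 1) := by
    ext i j
    exact h i j
  have h2 : (B.submatrix r c).rank = Fintype.card (Fin 4) := by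
    apply Matrix.rank_of_isUnit
    rw [Matrix.isUnit_iff_isUnit_det, e1]
    exact isUnit_iff_ne_zero.2 (h1 x y hx hy)
  have h3 := Matrix.rank_submatrix_le B r c
  rw [h2, Fintype.card_fin] at h3
  omega

theorem t_BL0 (h1 : S_CAU) (h2 : S_KST) : S_BL0 := by
  intro I J _ _ _ _ E T A u hA1 hA2 hu hT
  have hT0 : 0 < T := by omega
  classical
  set U : Finset (I × J) := Finset.univ.filter (fun p : I × J => E p.1 p.2 = none) with hU
  have hu' : u = U.card := by
    rw [hu, hU, Finset.card_filter, Fintype.sum_prod_type]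
  constructor
  · rintro ⟨B, hBr, hBd⟩
    set Dd : I → J → Finset (Fin T × Fin T) := fun i j =>
      Finset.univ.filter (fun ab => A (i, ab.1) (j, ab.2) ≠ B (i, ab.1) (j, ab.2)) with hDd
    have hD : ∑ p : I × J, (Dd p.1 p.2).card ≤ u * T ^ 2 := by
      rw [dist0] at hBd
      have h3 := Nat.cast_lt.1 hBd
      rw [card_blocks] at h3
      rw [Fintype.sum_prod_type]
      exact Nat.lt_succ_iff.1 h3
    have hDT : ∀ i j, (Dd i j).card ≤ T ^ 2 := by
      intro i j
      refine (Finset.card_le_univ _).trans (le_of_eq ?_)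
      rw [Fintype.card_prod, Fintype.card_fin]
      ring
    have hG : ∀ i j, E i j = none → (T ^ 2 - (Dd i j).card) ^ 4 ≤ 9 * T ^ 7 := by
      intro i j hij
      have h3 := h2 T (Dd i j)ᶜ (by
        intro f g hf hg
        by_contra hcon
        push Not at hcon
        apply rank_cau h1 B hBr (fun k => (i, f k)) (fun k => (j, g k)) (fun k => (f k : ℕ))
          (fun k => (g k : ℕ)) (fun a b hab => hf (Fin.ext hab)) (fun a b hab => hg (Fin.ext hab))
        intro k l
        have h4 := hcon k l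
        rw [Finset.mem_compl, hDd, Finset.mem_filter, not_and, not_not] at h4
        rw [← h4 (Finset.mem_univ _), hA2 i j (f k) (g l) hij])
      have h4 : ((Dd i j)ᶜ).card = T ^ 2 - (Dd i j).card := by
        rw [Finset.card_compl, Fintype.card_prod, Fintype.card_fin]
        congr 1
        ring
      rwa [h4] at h3
    set N : ℕ := Fintype.card I * Fintype.card J with hN
    have hG2 : ∀ p ∈ U, (T ^ 2 - (Dd p.1 p.2).card) * N < T ^ 2 := by
      intro p hp
      have hp' : E p.1 p.2 = none := (Finset.mem_filter.1 hp).2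
      have h3 := hG p.1 p.2 hp'
      have h4 : ((T ^ 2 - (Dd p.1 p.2).card) * N) ^ 4 < (T ^ 2) ^ 4 := by
        calc ((T ^ 2 - (Dd p.1 p.2).card) * N) ^ 4 = (T ^ 2 - (Dd p.1 p.2).card) ^ 4 * N ^ 4 :=
              mul_pow _ _ _
          _ ≤ 9 * T ^ 7 * N ^ 4 := Nat.mul_le_mul_right _ h3
          _ = T ^ 7 * (9 * N ^ 4) := by ring
          _ < T ^ 7 * T := Nat.mul_lt_mul_of_pos_left hT (by positivity)
          _ = (T ^ 2) ^ 4 := by ring
      exact lt_of_pow_lt_pow_left₀ 4 (Nat.zero_le _) h4
    -- a good pair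
    have hex : ∃ ab : Fin T × Fin T, ∀ i j, E i j ≠ none → ab ∉ Dd i j := by
      by_contra hcon
      push Not at hcon
      have h3 : (Finset.univ : Finset (Fin T × Fin T)) ⊆
          (Finset.univ.filter (fun p : I × J => ¬ E p.1 p.2 = none)).biUnion
            (fun p => Dd p.1 p.2) := by
        intro ab _
        obtain ⟨i, j, hij, hab⟩ := hcon ab
        exact Finset.mem_biUnion.2 ⟨(i, j), Finset.mem_filter.2 ⟨Finset.mem_univ _, hij⟩, hab⟩
      have h4 : T ^ 2 ≤ ∑ p ∈ Finset.univ.filter (fun p : I × J => ¬ E p.1 p.2 = none),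
          (Dd p.1 p.2).card := by
        have h5 := (Finset.card_le_card h3).trans Finset.card_biUnion_le
        rw [Finset.card_univ, Fintype.card_prod, Fintype.card_fin] at h5
        calc T ^ 2 = T * T := sq T
          _ ≤ _ := h5
      have h5 : ∑ p ∈ U, (Dd p.1 p.2).card +
          ∑ p ∈ Finset.univ.filter (fun p : I × J => ¬ E p.1 p.2 = none), (Dd p.1 p.2).card =
          ∑ p : I × J, (Dd p.1 p.2).card :=
        Finset.sum_filter_add_sum_filter_not (Finset.univ : Finset (I × J))
          (fun p : I × J => E p.1 p.2 = none) (fun p => (Dd p.1 p.2).card)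
      have h6 : T ^ 2 ≤ ∑ p ∈ U, (T ^ 2 - (Dd p.1 p.2).card) := by
        have h7 : ∑ p ∈ U, (T ^ 2 - (Dd p.1 p.2).card) + ∑ p ∈ U, (Dd p.1 p.2).card =
            U.card * T ^ 2 := by
          rw [← Finset.sum_add_distrib, Finset.sum_congr rfl
            (fun p _ => Nat.sub_add_cancel (hDT p.1 p.2)), Finset.sum_const, smul_eq_mul]
        rw [hu'] at hD
        omega
      have hUN : U.card ≤ N := by
        refine (Finset.card_le_univ _).trans (le_of_eq ?_)
        rw [Fintype.card_prod]
      have h7 : T ^ 2 * N ≤ ∑ p ∈ U, (T ^ 2 - (Dd p.1 p.2).card) * N := by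
        rw [← Finset.sum_mul]
        exact Nat.mul_le_mul_right _ h6
      rcases U.eq_empty_or_nonempty with h0 | h0
      · rw [h0, Finset.sum_empty] at h6
        have : 0 < T ^ 2 := by positivity
        omega
      · have h8 : ∑ p ∈ U, (T ^ 2 - (Dd p.1 p.2).card) * N < ∑ _p ∈ U, T ^ 2 :=
          Finset.sum_lt_sum_of_nonempty h0 hG2
        rw [Finset.sum_const, smul_eq_mul] at h8
        have h9 : U.card * T ^ 2 ≤ N * T ^ 2 := Nat.mul_le_mul_right _ hUN
        have h10 : T ^ 2 * N = N * T ^ 2 := mul_comm _ _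
        omega
    obtain ⟨ab, hab⟩ := hex
    refine ⟨B.submatrix (fun i => (i, ab.1)) (fun j => (j, ab.2)),
      (Matrix.rank_submatrix_le B _ _).trans hBr, ?_⟩
    intro i j q hq
    have h3 := hab i j (by rw [hq]; simp)
    rw [hDd, Finset.mem_filter, not_and, not_not] at h3
    show B (i, ab.1) (j, ab.2) = q
    rw [← h3 (Finset.mem_univ _)]
    exact hA1 i j _ _ q hq
  · rintro ⟨B, hBr, hB⟩
    refine ⟨B.submatrix Prod.fst Prod.fst, (Matrix.rank_submatrix_le B _ _).trans hBr, ?_⟩
    rw [dist0]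
    apply Nat.cast_lt.2
    rw [card_blocks]
    apply Nat.lt_succ_of_le
    rw [← Fintype.sum_prod_type' (f := fun (i : I) (j : J) =>
      ((Finset.univ : Finset (Fin T × Fin T)).filter
        (fun ab => A ((i, ab.1), (j, ab.2)).1 ((i, ab.1), (j, ab.2)).2 ≠
          B.submatrix Prod.fst Prod.fst ((i, ab.1), (j, ab.2)).1 ((i, ab.1), (j, ab.2)).2)).card)]
    rw [hu', Finset.card_eq_sum_ones, Finset.sum_mul, hU, Finset.sum_filter]
    apply Finset.sum_le_sum
    rintro ⟨i, j⟩ _
    by_cases hij : E i j = none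
    · rw [if_pos hij, one_mul]
      refine (Finset.card_le_univ _).trans (le_of_eq ?_)
      rw [Fintype.card_prod, Fintype.card_fin]
      ring
    · rw [if_neg hij]
      obtain ⟨q, hq⟩ := Option.ne_none_iff_exists'.1 hij
      rw [Nat.le_zero, Finset.card_eq_zero, Finset.filter_eq_empty_iff]
      intro ab _
      rw [not_not]
      show A (i, ab.1) (j, ab.2) = B i j
      rw [hA1 i j _ _ q hq, hB i j q hq]

end Pool.Agent.R569.LRBL0
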